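import Mathlib

/-!
# Braid graphs of links are not nontrivial box products

Every edge of the braid graph of a link carries an even position label.  In a square opposite edges
have the same label and the two labels of a square differ by more than `2`.
-/

set_option autoImplicit false

namespace Pool.Agent.Results.MP_948f5d_co.Indecomposable

variable {B : Type*}

/-- `b` arises from `a` by the braid move on the letters number `p + 1, p + 2, p + 3`. -/
def MoveAt (M : CoxeterMatrix B) (p : ℕ) (a b : List B) : Prop :=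
  ∃ l r s t, M s t = 3 ∧ l.length = p ∧ a = l ++ [s, t, s] ++ r ∧ b = l ++ [t, s, t] ++ r

/-- A braid move. -/
def Move (M : CoxeterMatrix B) (a b : List B) : Prop := ∃ p, MoveAt M p a b

/-- The braid class: everything reached by a finite sequence of braid moves. -/
def braidClass (M : CoxeterMatrix B) (a : List B) : Set (List B) :=
  {b | Relation.ReflTransGen (Move M) a b}

/-- The position triple `[[p + 1, p + 3]]` is a braid shadow of `a`. -/
def IsShadow (M : CoxeterMatrix B) (p : ℕ) (a : List B) : Prop :=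
  ∃ l r s t, M s t = 3 ∧ l.length = p ∧ a = l ++ [s, t, s] ++ r

/-- The union of the sets of braid shadows over the braid class, each triple `[[p + 1, p + 3]]`
being represented by `p`. -/
def shadows (M : CoxeterMatrix B) (a : List B) : Set ℕ :=
  {p | ∃ b ∈ braidClass M a, IsShadow M p b}

/-- `a` is a link: a reduced expression of length `m ≥ 1` with either `m = 1`, or `m` odd and
`shadows = {[[1, 3]], [[3, 5]], …, [[m - 2, m]]}`. -/
def IsLink {W : Type*} [Group W] {M : CoxeterMatrix B} (cs : CoxeterSystem M W) (a : List B) :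
    Prop :=
  cs.IsReduced a ∧ 1 ≤ a.length ∧
    (a.length = 1 ∨ (Odd a.length ∧ shadows M a = {p | Even p ∧ p + 3 ≤ a.length}))

/-- The Coxeter matrix is simply laced. -/
def SimplyLaced (M : CoxeterMatrix B) : Prop := ∀ s t, s ≠ t → M s t = 2 ∨ M s t = 3

theorem MoveAt.symm {M : CoxeterMatrix B} {p : ℕ} {a b : List B} (h : MoveAt M p a b) :
    MoveAt M p b a := by
  obtain ⟨l, r, s, t, h1, h2, h3, h4⟩ := h
  exact ⟨l, r, t, s, by rw [M.symmetric]; exact h1, h2, h4, h3⟩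

theorem MoveAt.ne {M : CoxeterMatrix B} {s t : B} (h : M s t = 3) : s ≠ t := by
  rintro rfl
  rw [M.diagonal] at h
  omega

theorem MoveAt.letters {M : CoxeterMatrix B} {p : ℕ} {a b : List B} (h : MoveAt M p a b) :
    ∃ s t, s ≠ t ∧ a[p]? = some s ∧ a[p + 1]? = some t ∧ a[p + 2]? = some s ∧
      b[p]? = some t ∧ b[p + 1]? = some s ∧ b[p + 2]? = some t := by
  obtain ⟨l, r, s, t, h1, rfl, rfl, rfl⟩ := h
  refine ⟨s, t, MoveAt.ne h1, ?_⟩
  simp

theorem MoveAt.outside {M : CoxeterMatrix B} {p : ℕ} {a b : List B} (h : MoveAt M p a b) {q : ℕ}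
    (hq : q < p ∨ p + 3 ≤ q) : a[q]? = b[q]? := by
  obtain ⟨l, r, s, t, h1, rfl, rfl, rfl⟩ := h
  rcases hq with hq | hq
  · rw [List.append_assoc, List.append_assoc, List.getElem?_append_left hq,
      List.getElem?_append_left hq]
  · rw [List.getElem?_append_right (by simp; omega), List.getElem?_append_right (by simp; omega)]
    simp

theorem MoveAt.unique {M : CoxeterMatrix B} {p : ℕ} {a b c : List B} (h1 : MoveAt M p a b)
    (h2 : MoveAt M p a c) : b = c := by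
  apply List.ext_getElem?
  intro q
  by_cases hq : q < p ∨ p + 3 ≤ q
  · rw [← h1.outside hq, ← h2.outside hq]
  · obtain ⟨s, t, -, a0, a1, a2, b0, b1, b2⟩ := h1.letters
    obtain ⟨s', t', -, a0', a1', a2', c0, c1, c2⟩ := h2.letters
    have hs : s = s' := by rw [a0] at a0'; exact Option.some.inj a0'
    have ht : t = t' := by rw [a1] at a1'; exact Option.some.inj a1'
    subst hs ht
    have : q = p ∨ q = p + 1 ∨ q = p + 2 := by omega
    rcases this with rfl | rfl | rfl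
    · rw [b0, c0]
    · rw [b1, c1]
    · rw [b2, c2]

/-- Squares with even labels. -/
theorem square {M : CoxeterMatrix B} {p q c d : ℕ} {v v' v'' w : List B} (hp : Even p)
    (hq : Even q) (hc : Even c) (hd : Even d) (h1 : MoveAt M p v v') (h2 : MoveAt M q v v'')
    (h3 : MoveAt M d v' w) (h4 : MoveAt M c v'' w) (hvw : v ≠ w) (hv : v' ≠ v'') :
    c = p ∧ d = q ∧ p ≠ q ∧ q ≠ p + 2 ∧ p ≠ q + 2 := by
  have hpq : p ≠ q := by
    rintro rfl
    exact hv (h1.unique h2)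
  have hdp : d ≠ p := by
    rintro rfl
    exact hvw (h1.symm.unique h3)
  have hcq : c ≠ q := by
    rintro rfl
    exact hvw (h2.symm.unique h4)
  obtain ⟨s, t, hst, a0, a1, a2, b0, b1, b2⟩ := h1.letters
  obtain ⟨s', t', hst', a0', a1', a2', b0', b1', b2'⟩ := h2.letters
  have hcp : c = p := by
    by_contra hcp
    have e1 : v'[p + 1]? = w[p + 1]? := h3.outside (by
      obtain ⟨x, hx⟩ := hp; obtain ⟨y, hy⟩ := hd; omega)
    have e2 : v''[p + 1]? = w[p + 1]? := h4.outside (by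
      obtain ⟨x, hx⟩ := hp; obtain ⟨y, hy⟩ := hc; omega)
    have e3 : v[p + 1]? = v''[p + 1]? := h2.outside (by
      obtain ⟨x, hx⟩ := hp; obtain ⟨y, hy⟩ := hq; omega)
    rw [← e2, ← e3, a1, b1] at e1
    exact hst (Option.some.inj e1)
  have hdq : d = q := by
    by_contra hdq
    have e1 : v'[q + 1]? = w[q + 1]? := h3.outside (by
      obtain ⟨x, hx⟩ := hq; obtain ⟨y, hy⟩ := hd; omega)
    have e2 : v''[q + 1]? = w[q + 1]? := h4.outside (by
      obtain ⟨x, hx⟩ := hq; obtain ⟨y, hy⟩ := hc; omega)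
    have e3 : v[q + 1]? = v'[q + 1]? := h1.outside (by
      obtain ⟨x, hx⟩ := hp; obtain ⟨y, hy⟩ := hq; omega)
    rw [← e1, ← e3, a1', b1'] at e2
    exact hst' (Option.some.inj e2)
  subst hcp hdq
  refine ⟨rfl, rfl, hpq, ?_, ?_⟩
  · rintro rfl
    -- `d = c + 2`
    obtain ⟨x, y, hxy, f0, f1, f2, -⟩ := h3.letters
    have e1 : v[c + 2 + 2]? = v'[c + 2 + 2]? := h1.outside (by omega)
    rw [a2', f2] at e1
    rw [b2] at f0
    rw [a2] at a0'
    have g1 := Option.some.inj e1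
    have g2 := Option.some.inj f0
    have g3 := Option.some.inj a0'
    exact hst (by rw [g3, g1, ← g2])
  · rintro rfl
    obtain ⟨x, y, hxy, f0, f1, f2, -⟩ := h4.letters
    have e1 : v[d + 2 + 2]? = v''[d + 2 + 2]? := h2.outside (by omega)
    rw [a2, f2] at e1
    rw [b2'] at f0
    rw [a2'] at a0
    have g1 := Option.some.inj e1
    have g2 := Option.some.inj f0
    have g3 := Option.some.inj a0
    exact hst' (by rw [g3, g1, ← g2])

/-- The braid graph of `a`. -/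
def braidGraph (M : CoxeterMatrix B) (a : List B) : SimpleGraph (braidClass M a) where
  Adj x y := Move M x.1 y.1
  symm := ⟨fun _ _ ⟨p, h⟩ => ⟨p, h.symm⟩⟩
  loopless := ⟨fun x ⟨p, h⟩ => by
    obtain ⟨s, t, hst, a0, -, -, b0, -⟩ := h.letters
    rw [a0] at b0
    exact hst (Option.some.inj b0)⟩

theorem braidGraph_connected (M : CoxeterMatrix B) (a : List B) : (braidGraph M a).Connected := by
  have ha : a ∈ braidClass M a := Relation.ReflTransGen.refl
  have key : ∀ b (hb : b ∈ braidClass M a), (braidGraph M a).Reachable ⟨a, ha⟩ ⟨b, hb⟩ := by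
    intro b hb
    have hb' : Relation.ReflTransGen (Move M) a b := hb
    induction hb' with
    | refl => exact SimpleGraph.Reachable.refl _
    | tail h1 h2 ih =>
      have h2' : (braidGraph M a).Adj ⟨_, h1⟩ ⟨_, hb⟩ := h2
      exact (ih h1).trans h2'.reachable
  have : Nonempty (braidClass M a) := ⟨⟨a, ha⟩⟩
  exact ⟨fun x y => (key x.1 x.2).symm.trans (key y.1 y.2)⟩

open SimpleGraph in
theorem not_boxProd {W : Type*} [Group W] {M : CoxeterMatrix B} (cs : CoxeterSystem M W)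
    (a : List B) (ha : IsLink cs a) {V₁ V₂ : Type*} [Nontrivial V₁] [Nontrivial V₂]
    (G : SimpleGraph V₁) (H : SimpleGraph V₂) : IsEmpty (braidGraph M a ≃g G □ H) := by
  constructor
  intro φ
  obtain ⟨-, -, hlink⟩ := ha
  have hconn : (G □ H).Connected := φ.connected_iff.mp (braidGraph_connected M a)
  obtain ⟨hG, hH⟩ := SimpleGraph.connected_boxProd.mp hconn
  -- all moves inside the class have even positions in the range
  have hlab : ∀ p, ∀ x y : braidClass M a, MoveAt M p x.1 y.1 →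
      Even p ∧ p + 3 ≤ a.length := by
    intro p x y h
    rcases hlink with h1 | ⟨-, h2⟩
    · -- length one: no moves
      exfalso
      have hlen : ∀ b, Relation.ReflTransGen (Move M) a b → b.length = 1 := by
        intro b hb
        induction hb with
        | refl => exact h1
        | tail _ h2 ih =>
          obtain ⟨q, l, r, s, t, -, -, e1, e2⟩ := h2
          rw [e1] at ih
          simp at ih
          omega
      obtain ⟨l, r, s, t, -, -, e1, -⟩ := h
      have := hlen x.1 x.2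
      rw [e1] at this
      simp at this
      omega
    · have : p ∈ shadows M a := by
        obtain ⟨l, r, s, t, g1, g2, g3, -⟩ := h
        exact ⟨x.1, x.2, l, r, s, t, g1, g2, g3⟩
      rw [h2] at this
      exact this
  set ψ : V₁ × V₂ → braidClass M a := fun z => φ.symm z with hψ
  have hψinj : Function.Injective ψ := φ.symm.injective
  have hadj : ∀ x y : V₁ × V₂, (G □ H).Adj x y → ∃ p, MoveAt M p (ψ x).1 (ψ y).1 := by
    intro x y h
    exact (φ.symm.map_adj_iff.mpr h : (braidGraph M a).Adj (ψ x) (ψ y))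
  have hadjG : ∀ g₁ g₂ h, G.Adj g₁ g₂ → ∃ p, MoveAt M p (ψ (g₁, h)).1 (ψ (g₂, h)).1 :=
    fun g₁ g₂ h hg => hadj _ _ (by rw [boxProd_adj]; exact Or.inl ⟨hg, rfl⟩)
  have hadjH : ∀ g h₁ h₂, H.Adj h₁ h₂ → ∃ p, MoveAt M p (ψ (g, h₁)).1 (ψ (g, h₂)).1 :=
    fun g h₁ h₂ hh => hadj _ _ (by rw [boxProd_adj]; exact Or.inr ⟨hh, rfl⟩)
  -- the square lemma inside the product
  have hsq : ∀ g₁ g₂ h₁ h₂, G.Adj g₁ g₂ → H.Adj h₁ h₂ → ∀ p q c d,
      MoveAt M p (ψ (g₁, h₁)).1 (ψ (g₂, h₁)).1 → MoveAt M q (ψ (g₁, h₁)).1 (ψ (g₁, h₂)).1 →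
      MoveAt M d (ψ (g₂, h₁)).1 (ψ (g₂, h₂)).1 → MoveAt M c (ψ (g₁, h₂)).1 (ψ (g₂, h₂)).1 →
      c = p ∧ d = q ∧ p ≠ q ∧ q ≠ p + 2 ∧ p ≠ q + 2 := by
    intro g₁ g₂ h₁ h₂ hg hh p q c d e1 e2 e3 e4
    refine square (hlab _ _ _ e1).1 (hlab _ _ _ e2).1 (hlab _ _ _ e4).1 (hlab _ _ _ e3).1
      e1 e2 e3 e4 ?_ ?_
    · intro h
      have := hψinj (Subtype.ext h)
      exact hg.ne (Prod.ext_iff.mp this).1
    · intro h
      have := hψinj (Subtype.ext h)
      exact hg.ne (Prod.ext_iff.mp this).1.symm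
  -- transport of labels
  have htransG : ∀ g₁ g₂, G.Adj g₁ g₂ → ∀ p h₁ h₂,
      MoveAt M p (ψ (g₁, h₁)).1 (ψ (g₂, h₁)).1 → MoveAt M p (ψ (g₁, h₂)).1 (ψ (g₂, h₂)).1 := by
    intro g₁ g₂ hg p h₁ h₂ hm
    obtain ⟨walk⟩ := hH.preconnected h₁ h₂
    induction walk with
    | nil => exact hm
    | @cons u v w huv _ ih =>
      apply ih
      obtain ⟨c, hc⟩ := hadjG g₁ g₂ v hg
      obtain ⟨q, hq⟩ := hadjH g₁ u v huv
      obtain ⟨d, hd⟩ := hadjH g₂ u v huv
      obtain ⟨rfl, -⟩ := hsq g₁ g₂ u v hg huv p q c d hm hq hd hc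
      exact hc
  have htransH : ∀ h₁ h₂, H.Adj h₁ h₂ → ∀ p g₁ g₂,
      MoveAt M p (ψ (g₁, h₁)).1 (ψ (g₁, h₂)).1 → MoveAt M p (ψ (g₂, h₁)).1 (ψ (g₂, h₂)).1 := by
    intro h₁ h₂ hh p g₁ g₂ hm
    obtain ⟨walk⟩ := hG.preconnected g₁ g₂
    induction walk with
    | nil => exact hm
    | @cons u v w huv _ ih =>
      apply ih
      obtain ⟨c, hc⟩ := hadjG u v h₁ huv
      obtain ⟨c', hc'⟩ := hadjG u v h₂ huv
      obtain ⟨d, hd⟩ := hadjH v h₁ h₂ hh
      obtain ⟨-, rfl, -⟩ := hsq u v h₁ h₂ huv hh c p c' d hc hm hd hc'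
      exact hd
  -- the two sets of labels
  set LG : Set ℕ := {p | ∃ g₁ g₂, G.Adj g₁ g₂ ∧
    ∀ h, MoveAt M p (ψ (g₁, h)).1 (ψ (g₂, h)).1} with hLG
  set LH : Set ℕ := {p | ∃ h₁ h₂, H.Adj h₁ h₂ ∧
    ∀ g, MoveAt M p (ψ (g, h₁)).1 (ψ (g, h₂)).1} with hLH
  have hsep : ∀ p ∈ LG, ∀ q ∈ LH, p ≠ q ∧ q ≠ p + 2 ∧ p ≠ q + 2 := by
    rintro p ⟨g₁, g₂, hg, hp⟩ q ⟨h₁, h₂, hh, hq⟩
    exact (hsq g₁ g₂ h₁ h₂ hg hh p q p q (hp h₁) (hq g₁) (hq g₂) (hp h₂)).2.2
  obtain ⟨g0⟩ := hG.nonempty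
  obtain ⟨h0⟩ := hH.nonempty
  obtain ⟨p0, hp0⟩ : ∃ p, p ∈ LG := by
    obtain ⟨g1, hg1⟩ := hG.preconnected.exists_adj_of_nontrivial g0
    obtain ⟨p, hp⟩ := hadjG g0 g1 h0 hg1
    exact ⟨p, g0, g1, hg1, fun h => htransG g0 g1 hg1 p h0 h hp⟩
  obtain ⟨q0, hq0⟩ : ∃ q, q ∈ LH := by
    obtain ⟨h1, hh1⟩ := hH.preconnected.exists_adj_of_nontrivial h0
    obtain ⟨q, hq⟩ := hadjH g0 h0 h1 hh1
    exact ⟨q, h0, h1, hh1, fun g => htransH h0 h1 hh1 q g0 g hq⟩
  have hrG : ∀ p ∈ LG, Even p ∧ p + 3 ≤ a.length := by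
    rintro p ⟨g₁, g₂, hg, hp⟩
    exact hlab _ _ _ (hp h0)
  have hrH : ∀ p ∈ LH, Even p ∧ p + 3 ≤ a.length := by
    rintro p ⟨h₁, h₂, hh, hp⟩
    exact hlab _ _ _ (hp g0)
  -- every admissible position occurs
  have hall : ∀ p, Even p → p + 3 ≤ a.length → p ∈ LG ∨ p ∈ LH := by
    intro p hp1 hp2
    have hp : p ∈ shadows M a := by
      rcases hlink with h1 | ⟨-, h2⟩
      · omega
      · rw [h2]; exact ⟨hp1, hp2⟩
    obtain ⟨b, hb, l, r, s, t, e1, e2, e3⟩ := hp
    have hmove : MoveAt M p b (l ++ [t, s, t] ++ r) := ⟨l, r, s, t, e1, e2, e3, rfl⟩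
    have hc : (l ++ [t, s, t] ++ r) ∈ braidClass M a :=
      Relation.ReflTransGen.tail hb ⟨p, hmove⟩
    have hadj' : (braidGraph M a).Adj ⟨b, hb⟩ ⟨_, hc⟩ := ⟨p, hmove⟩
    have h1 := φ.map_adj_iff.mpr hadj'
    obtain ⟨⟨g₁, h₁⟩, hx⟩ : ∃ x, x = φ ⟨b, hb⟩ := ⟨_, rfl⟩
    obtain ⟨⟨g₂, h₂⟩, hy⟩ : ∃ y, y = φ ⟨_, hc⟩ := ⟨_, rfl⟩
    have hxb : ψ (g₁, h₁) = ⟨b, hb⟩ := by rw [hx]; exact φ.symm_apply_apply _
    have hyc : ψ (g₂, h₂) = ⟨_, hc⟩ := by rw [hy]; exact φ.symm_apply_apply _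
    rw [← hx, ← hy, boxProd_adj] at h1
    rcases h1 with ⟨hg, hh⟩ | ⟨hh, hg⟩
    · left
      have hh' : h₁ = h₂ := hh
      subst hh'
      exact ⟨g₁, g₂, hg, fun h => htransG g₁ g₂ hg p h₁ h (by rw [hxb, hyc]; exact hmove)⟩
    · right
      have hg' : g₁ = g₂ := hg
      subst hg'
      exact ⟨h₁, h₂, hh, fun g => htransH h₁ h₂ hh p g₁ g (by rw [hxb, hyc]; exact hmove)⟩
  have hconst : ∀ k, 2 * k + 3 ≤ a.length → (2 * k ∈ LG ↔ 0 ∈ LG) := by
    intro k
    induction k with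
    | zero => intro _; simp
    | succ k ih =>
      intro hk
      rw [← ih (by omega)]
      constructor
      · intro h
        by_contra hcon
        have := (hall (2 * k) (by simp) (by omega)).resolve_left hcon
        exact (hsep _ h _ this).2.2 (by ring)
      · intro h
        by_contra hcon
        have := (hall (2 * (k + 1)) (by simp) hk).resolve_left hcon
        exact (hsep _ h _ this).2.1 (by ring)
  obtain ⟨⟨x, hx⟩, hx2⟩ := hrG p0 hp0
  obtain ⟨⟨y, hy⟩, hy2⟩ := hrH q0 hq0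
  have hx' : p0 = 2 * x := by omega
  have hy' : q0 = 2 * y := by omega
  rw [hx'] at hp0
  rw [hy'] at hq0
  have h1 : 0 ∈ LG := (hconst x (by omega)).mp hp0
  have h2 : 2 * y ∈ LG := (hconst y (by omega)).mpr h1
  exact (hsep _ h2 _ hq0).1 rfl

open SimpleGraph in
/-- **Q1 holds.** For every simply-laced Coxeter system and every link `a`, the braid graph of `a`
is not isomorphic to `G □ H` for nontrivial graphs `G`, `H`. -/
theorem result {B W : Type*} [Group W] {M : CoxeterMatrix B} (cs : CoxeterSystem M W)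
    (_hM : SimplyLaced M) (a : List B) (ha : IsLink cs a) {V₁ V₂ : Type*} [Nontrivial V₁]
    [Nontrivial V₂] (G : SimpleGraph V₁) (H : SimpleGraph V₂) :
    IsEmpty (braidGraph M a ≃g G □ H) :=
  not_boxProd cs a ha G H

end Pool.Agent.Results.MP_948f5d_co.Indecomposable
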